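import Pool.Agent.Y395.SP.Stm

/-!
# Rotations below a marked top part can be postponed
-/

set_option autoImplicit false

namespace Pool.Agent.Y562.SP.PULL

open Pool.Agent.H581R2.Splay Pool.Agent.TH49.Spl Pool.Agent.Y395.SP

/-! ### sequences of rotations -/

theorem rotN_zero {T T' : Tr} (h : RotN 0 T T') : T = T' := by
  cases h
  rfl

theorem rotN_trans {e f : ℕ} {T T' T'' : Tr} (h : RotN e T T') (h' : RotN f T' T'') :
    RotN (e + f) T T'' := by
  induction h with
  | refl T => rw [Nat.zero_add]; exact h'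
  | step e s T T' T1 hr _ ih =>
    have h1 := RotN.step (e + f) s T T' T'' hr (ih h')
    have h2 : e + 1 + f = e + f + 1 := by omega
    rw [h2]
    exact h1

theorem rotN_one {T T' : Tr} {s : ℕ} (h : Rot T T' s) : RotN 1 T T' :=
  RotN.step 0 s T T' T' h (RotN.refl T')

theorem rotN_last : ∀ (e : ℕ) (T T'' : Tr), RotN (e + 1) T T'' →
    ∃ (U : Tr) (s : ℕ), RotN e T U ∧ Rot U T'' s := by
  intro e
  induction e with
  | zero =>
    intro T T'' h
    cases h with
    | step _ s _ T' _ hr h' =>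
      have := rotN_zero h'
      subst this
      exact ⟨T, s, RotN.refl T, hr⟩
  | succ e ih =>
    intro T T'' h
    cases h with
    | step _ s _ T' _ hr h' =>
      obtain ⟨U, s', h1, h2⟩ := ih T' T'' h'
      exact ⟨U, s', RotN.step e s T T' U hr h1, h2⟩

theorem rotN_inl {e : ℕ} {T T' : Tr} (a : ℕ) (R : Tr) (h : RotN e T T') :
    RotN e (Tr.node a T R) (Tr.node a T' R) := by
  induction h with
  | refl T => exact RotN.refl _
  | step e s T T' T1 hr _ ih => exact RotN.step e s _ _ _ (Rot.inl a T T' R s hr) ih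

theorem rotN_inr {e : ℕ} {T T' : Tr} (a : ℕ) (L : Tr) (h : RotN e T T') :
    RotN e (Tr.node a L T) (Tr.node a L T') := by
  induction h with
  | refl T => exact RotN.refl _
  | step e s T T' T1 hr _ ih => exact RotN.step e s _ _ _ (Rot.inr a L T T' s hr) ih

/-! ### marked trees -/

theorem ref_erase {D C : Ctx} (h : Ref D C) : erase D = erase C := by
  induction h with
  | hole C => rfl
  | node a l r l' r' _ _ ih1 ih2 => simp only [erase, ih1, ih2]

theorem ref_refl (D : Ctx) : Ref D D := by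
  induction D with
  | hole t => exact Ref.hole (Ctx.hole t)
  | node a l r ih1 ih2 => exact Ref.node a l r l r ih1 ih2

theorem ref_trans {A B : Ctx} (h : Ref A B) : ∀ C : Ctx, Ref B C → Ref A C := by
  induction h with
  | hole B =>
    intro C h'
    rw [ref_erase h']
    exact Ref.hole C
  | node a l r l' r' _ _ ih1 ih2 =>
    intro C h'
    cases h' with
    | node _ _ _ l2 r2 h1 h2 => exact Ref.node a l r l2 r2 (ih1 l2 h1) (ih2 r2 h2)

theorem sim_rotN {D' D : Ctx} {s : ℕ} (h : Sim D' D s) : RotN s (erase D') (erase D) := by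
  induction h with
  | hole t t' s h => exact h
  | node a l l' r r' s s' _ _ ih1 ih2 =>
    exact rotN_trans (rotN_inl a (erase r) ih1) (rotN_inr a (erase l') ih2)

theorem sim_refl (D : Ctx) : Sim D D 0 := by
  induction D with
  | hole t => exact Sim.hole t t 0 (RotN.refl t)
  | node a l r ih1 ih2 => exact Sim.node a l l r r 0 0 ih1 ih2

theorem sim_trans {D' D : Ctx} {s' : ℕ} (h : Sim D' D s') : ∀ (D'' : Ctx) (s : ℕ), Sim D'' D' s →
    Sim D'' D (s + s') := by
  induction h with
  | hole t t' s h =>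
    intro D'' s1 h'
    cases h' with
    | hole t2 _ _ h2 => exact Sim.hole t2 t' (s1 + s) (rotN_trans h2 h)
  | node a l l' r r' s s' _ _ ih1 ih2 =>
    intro D'' s1 h'
    cases h' with
    | node _ l2 _ r2 _ u u' h1 h2 =>
      have h3 := Sim.node a l2 l' r2 r' (u + s) (u' + s') (ih1 l2 u h1) (ih2 r2 u' h2)
      have h4 : u + u' + (s + s') = u + s + (u' + s') := by omega
      rw [h4]
      exact h3

theorem sim_msize {D' D : Ctx} {s : ℕ} (h : Sim D' D s) : msize D' = msize D := by
  induction h with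
  | hole t t' s h => rfl
  | node a l l' r r' s s' _ _ ih1 ih2 => simp only [msize, ih1, ih2]

/-! ### one rotation -/

theorem rot_ctx {U V : Tr} {σ : ℕ} (h : Rot U V σ) : ∀ D : Ctx, erase D = V →
    (∃ DU, erase DU = U ∧ Sim DU D 1) ∨
    ∃ D2 DU, Ref D D2 ∧ erase D2 = V ∧ erase DU = U ∧ fl DU = fl D2 ∧ msize D2 ≤ msize D + 1 := by
  induction h with
  | right a b A B C =>
    intro D hD
    cases D with
    | hole t =>
      simp only [erase] at hD
      subst hD
      exact Or.inl ⟨Ctx.hole (Tr.node a (Tr.node b A B) C), rfl,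
        Sim.hole _ _ 1 (rotN_one (Rot.right a b A B C))⟩
    | node c l r =>
      simp only [erase, Tr.node.injEq] at hD
      obtain ⟨rfl, rfl, h3⟩ := hD
      cases r with
      | hole t =>
        simp only [erase] at h3
        subst h3
        refine Or.inr ⟨Ctx.node c l (Ctx.node a (Ctx.hole B) (Ctx.hole C)),
          Ctx.node a (Ctx.node c l (Ctx.hole B)) (Ctx.hole C), ?_, rfl, rfl, ?_, ?_⟩
        · exact Ref.node c l _ l _ (ref_refl l) (Ref.hole (Ctx.node a (Ctx.hole B) (Ctx.hole C)))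
        · simp [fl]
        · simp only [msize]
          omega
      | node d l1 r1 =>
        simp only [erase, Tr.node.injEq] at h3
        obtain ⟨rfl, rfl, rfl⟩ := h3
        refine Or.inr ⟨Ctx.node c l (Ctx.node d l1 r1),
          Ctx.node d (Ctx.node c l l1) r1, ref_refl _, rfl, rfl, ?_, by omega⟩
        simp [fl]
  | left a b A B C =>
    intro D hD
    cases D with
    | hole t =>
      simp only [erase] at hD
      subst hD
      exact Or.inl ⟨Ctx.hole (Tr.node b A (Tr.node a B C)), rfl,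
        Sim.hole _ _ 1 (rotN_one (Rot.left a b A B C))⟩
    | node c l r =>
      simp only [erase, Tr.node.injEq] at hD
      obtain ⟨rfl, h3, rfl⟩ := hD
      cases l with
      | hole t =>
        simp only [erase] at h3
        subst h3
        refine Or.inr ⟨Ctx.node c (Ctx.node b (Ctx.hole A) (Ctx.hole B)) r,
          Ctx.node b (Ctx.hole A) (Ctx.node c (Ctx.hole B) r), ?_, rfl, rfl, ?_, ?_⟩
        · exact Ref.node c _ r _ r (Ref.hole (Ctx.node b (Ctx.hole A) (Ctx.hole B))) (ref_refl r)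
        · simp [fl]
        · simp only [msize]
          omega
      | node d l1 r1 =>
        simp only [erase, Tr.node.injEq] at h3
        obtain ⟨rfl, rfl, rfl⟩ := h3
        refine Or.inr ⟨Ctx.node c (Ctx.node d l1 r1) r,
          Ctx.node d l1 (Ctx.node c r1 r), ref_refl _, rfl, rfl, ?_, by omega⟩
        simp [fl]
  | inl a L L' R s hr ih =>
    intro D hD
    cases D with
    | hole t =>
      simp only [erase] at hD
      subst hD
      exact Or.inl ⟨Ctx.hole (Tr.node a L R), rfl,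
        Sim.hole _ _ 1 (rotN_one (Rot.inl a L L' R s hr))⟩
    | node c l r =>
      simp only [erase, Tr.node.injEq] at hD
      obtain ⟨rfl, rfl, rfl⟩ := hD
      rcases ih l rfl with ⟨DU, h1, h2⟩ | ⟨D2, DU, h1, h2, h3, h4, h5⟩
      · refine Or.inl ⟨Ctx.node c DU r, ?_, ?_⟩
        · simp only [erase, h1]
        · exact Sim.node c DU l r r 1 0 h2 (sim_refl r)
      · refine Or.inr ⟨Ctx.node c D2 r, Ctx.node c DU r, ?_, ?_, ?_, ?_, ?_⟩
        · exact Ref.node c l r D2 r h1 (ref_refl r)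
        · simp only [erase, h2]
        · simp only [erase, h3]
        · simp only [fl, h4]
        · simp only [msize]
          omega
  | inr a L R R' s hr ih =>
    intro D hD
    cases D with
    | hole t =>
      simp only [erase] at hD
      subst hD
      exact Or.inl ⟨Ctx.hole (Tr.node a L R), rfl,
        Sim.hole _ _ 1 (rotN_one (Rot.inr a L R R' s hr))⟩
    | node c l r =>
      simp only [erase, Tr.node.injEq] at hD
      obtain ⟨rfl, rfl, rfl⟩ := hD
      rcases ih r rfl with ⟨DU, h1, h2⟩ | ⟨D2, DU, h1, h2, h3, h4, h5⟩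
      · refine Or.inl ⟨Ctx.node c l DU, ?_, ?_⟩
        · simp only [erase, h1]
        · exact Sim.node c l l DU r 0 1 (sim_refl l) h2
      · refine Or.inr ⟨Ctx.node c l D2, Ctx.node c l DU, ?_, ?_, ?_, ?_, ?_⟩
        · exact Ref.node c l r l D2 (ref_refl l) h1
        · simp only [erase, h2]
        · simp only [erase, h3]
        · simp only [fl, h4]
        · simp only [msize]
          omega

/-! ### lists -/

/-- refinements of lists of marks and hanging trees -/
inductive RefL : List (Tr ⊕ ℕ) → List (Tr ⊕ ℕ) → Prop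
  | nil : RefL [] []
  | mark (a : ℕ) (L M : List (Tr ⊕ ℕ)) : RefL L M → RefL (Sum.inr a :: L) (Sum.inr a :: M)
  | hole (E : Ctx) (L M : List (Tr ⊕ ℕ)) : RefL L M → RefL (Sum.inl (erase E) :: L) (fl E ++ M)

theorem refL_append {L M : List (Tr ⊕ ℕ)} (h : RefL L M) : ∀ L' M' : List (Tr ⊕ ℕ), RefL L' M' →
    RefL (L ++ L') (M ++ M') := by
  induction h with
  | nil => intro L' M' h'; exact h'
  | mark a L M _ ih => intro L' M' h'; exact RefL.mark a _ _ (ih L' M' h')
  | hole E L M _ ih =>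
    intro L' M' h'
    rw [List.append_assoc, List.cons_append]
    exact RefL.hole E _ _ (ih L' M' h')

theorem refL_split : ∀ (L L' N : List (Tr ⊕ ℕ)), RefL (L ++ L') N →
    ∃ M M' : List (Tr ⊕ ℕ), N = M ++ M' ∧ RefL L M ∧ RefL L' M' := by
  intro L
  induction L with
  | nil => intro L' N h; exact ⟨[], N, rfl, RefL.nil, h⟩
  | cons x L ih =>
    intro L' N h
    rw [List.cons_append] at h
    cases h with
    | mark a _ M h1 =>
      obtain ⟨M1, M2, rfl, h2, h3⟩ := ih L' M h1
      exact ⟨Sum.inr a :: M1, M2, rfl, RefL.mark a _ _ h2, h3⟩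
    | hole E _ M h1 =>
      obtain ⟨M1, M2, rfl, h2, h3⟩ := ih L' M h1
      exact ⟨fl E ++ M1, M2, (List.append_assoc _ _ _).symm, RefL.hole E _ _ h2, h3⟩

theorem ref_refL {D C : Ctx} (h : Ref D C) : RefL (fl D) (fl C) := by
  induction h with
  | hole C =>
    have h1 := RefL.hole C [] [] RefL.nil
    rw [List.append_nil] at h1
    exact h1
  | node a l r l' r' _ _ ih1 ih2 =>
    simp only [fl]
    exact refL_append ih1 _ _ (RefL.mark a _ _ ih2)

theorem refL_ref : ∀ (D : Ctx) (M : List (Tr ⊕ ℕ)), RefL (fl D) M → ∃ C, Ref D C ∧ fl C = M := by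
  intro D
  induction D with
  | hole t =>
    intro M h
    simp only [fl] at h
    cases h with
    | hole E _ M' h1 =>
      cases h1
      exact ⟨E, Ref.hole E, (List.append_nil _).symm⟩
  | node a l r ih1 ih2 =>
    intro M h
    simp only [fl] at h
    obtain ⟨M1, M2, rfl, h1, h2⟩ := refL_split _ _ _ h
    cases h2 with
    | mark _ _ M3 h3 =>
      obtain ⟨C1, hC1, e1⟩ := ih1 M1 h1
      obtain ⟨C2, hC2, e2⟩ := ih2 M3 h3
      exact ⟨Ctx.node a C1 C2, Ref.node a l r C1 C2 hC1 hC2, by simp only [fl, e1, e2]⟩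

/-- rotations in lists of marks and hanging trees -/
inductive SimL : List (Tr ⊕ ℕ) → List (Tr ⊕ ℕ) → ℕ → Prop
  | nil : SimL [] [] 0
  | mark (a : ℕ) (L M : List (Tr ⊕ ℕ)) (s : ℕ) : SimL L M s →
      SimL (Sum.inr a :: L) (Sum.inr a :: M) s
  | hole (t t' : Tr) (s : ℕ) (L M : List (Tr ⊕ ℕ)) (s' : ℕ) : RotN s t t' → SimL L M s' →
      SimL (Sum.inl t :: L) (Sum.inl t' :: M) (s + s')

theorem simL_append {L M : List (Tr ⊕ ℕ)} {s : ℕ} (h : SimL L M s) :
    ∀ (L' M' : List (Tr ⊕ ℕ)) (s' : ℕ), SimL L' M' s' → SimL (L ++ L') (M ++ M') (s + s') := by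
  induction h with
  | nil => intro L' M' s' h'; rw [Nat.zero_add]; exact h'
  | mark a L M s _ ih => intro L' M' s' h'; exact SimL.mark a _ _ _ (ih L' M' s' h')
  | hole t t' s L M s1 hr _ ih =>
    intro L' M' s' h'
    rw [Nat.add_assoc]
    exact SimL.hole t t' s _ _ _ hr (ih L' M' s' h')

theorem simL_split : ∀ (M M' N : List (Tr ⊕ ℕ)) (s : ℕ), SimL N (M ++ M') s →
    ∃ (L L' : List (Tr ⊕ ℕ)) (s1 s2 : ℕ), N = L ++ L' ∧ s = s1 + s2 ∧ SimL L M s1 ∧
      SimL L' M' s2 := by
  intro M
  induction M with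
  | nil => intro M' N s h; exact ⟨[], N, 0, s, rfl, (Nat.zero_add s).symm, SimL.nil, h⟩
  | cons x M ih =>
    intro M' N s h
    rw [List.cons_append] at h
    cases h with
    | mark a L _ _ h1 =>
      obtain ⟨L1, L2, s1, s2, rfl, rfl, h2, h3⟩ := ih M' L s h1
      exact ⟨Sum.inr a :: L1, L2, s1, s2, rfl, rfl, SimL.mark a _ _ _ h2, h3⟩
    | hole t t' u L _ u' hr h1 =>
      obtain ⟨L1, L2, s1, s2, rfl, rfl, h2, h3⟩ := ih M' L u' h1
      exact ⟨Sum.inl t :: L1, L2, u + s1, s2, rfl, (Nat.add_assoc _ _ _).symm,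
        SimL.hole t t' u _ _ _ hr h2, h3⟩

theorem sim_simL {D' D : Ctx} {s : ℕ} (h : Sim D' D s) : SimL (fl D') (fl D) s := by
  induction h with
  | hole t t' s h => exact SimL.hole t t' s [] [] 0 h SimL.nil
  | node a l l' r r' s s' _ _ ih1 ih2 =>
    simp only [fl]
    exact simL_append ih1 _ _ _ (SimL.mark a _ _ _ ih2)

theorem simL_sim : ∀ (C : Ctx) (L : List (Tr ⊕ ℕ)) (s : ℕ), SimL L (fl C) s →
    ∃ C', fl C' = L ∧ Sim C' C s := by
  intro C
  induction C with
  | hole t =>
    intro L s h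
    simp only [fl] at h
    cases h with
    | hole t1 _ u L1 _ u' hr h1 =>
      cases h1
      exact ⟨Ctx.hole t1, rfl, Sim.hole t1 t u hr⟩
  | node a l r ih1 ih2 =>
    intro L s h
    simp only [fl] at h
    obtain ⟨L1, L2, s1, s2, rfl, rfl, h1, h2⟩ := simL_split _ _ _ _ h
    cases h2 with
    | mark _ L3 _ _ h3 =>
      obtain ⟨C1, e1, hC1⟩ := ih1 L1 s1 h1
      obtain ⟨C2, e2, hC2⟩ := ih2 L3 s2 h3
      exact ⟨Ctx.node a C1 C2, by simp only [fl, e1, e2], Sim.node a C1 l C2 r s1 s2 hC1 hC2⟩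

theorem shift {D1' D1 D2 : Ctx} {s : ℕ} (h : Sim D1' D1 s) (hf : fl D1 = fl D2) :
    ∃ D2', Sim D2' D2 s ∧ fl D2' = fl D1' := by
  have h1 := sim_simL h
  rw [hf] at h1
  obtain ⟨C, h2, h3⟩ := simL_sim D2 _ _ h1
  exact ⟨C, h3, h2⟩

theorem ext {D C E : Ctx} (h : Ref D C) (hf : fl D = fl E) : ∃ C2, Ref E C2 ∧ fl C2 = fl C := by
  have h1 := ref_refL h
  rw [hf] at h1
  exact refL_ref E _ h1

theorem msize_fl (D : Ctx) : msize D = (fl D).countP Sum.isRight := by
  induction D with
  | hole t => simp [msize, fl]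
  | node a l r ih1 ih2 =>
    simp only [msize, fl, List.countP_append, List.countP_cons, ih1, ih2]
    simp
    omega

theorem restrict {D D2 : Ctx} (h : Ref D D2) : ∀ (D2' : Ctx) (s : ℕ), Sim D2' D2 s →
    ∃ D', Sim D' D s ∧ Ref D' D2' := by
  induction h with
  | hole D2 =>
    intro D2' s h'
    exact ⟨Ctx.hole (erase D2'), Sim.hole _ _ s (sim_rotN h'), Ref.hole D2'⟩
  | node a l r l' r' _ _ ih1 ih2 =>
    intro D2' s h'
    cases h' with
    | node _ l2 _ r2 _ u u' h1 h2 =>
      obtain ⟨X, hX1, hX2⟩ := ih1 l2 u h1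
      obtain ⟨Y, hY1, hY2⟩ := ih2 r2 u' h2
      exact ⟨Ctx.node a X Y, Sim.node a X l Y r u u' hX1 hY1, Ref.node a X Y l2 r2 hX2 hY2⟩

/-! ### the result -/

theorem main : SPull := by
  intro s
  induction s with
  | zero =>
    intro K V h D hD
    have := rotN_zero h
    subst this
    exact ⟨0, le_refl _, D, D, D, hD, rfl, by omega, ref_refl D, sim_refl D⟩
  | succ s ih =>
    intro K V h D hD
    obtain ⟨U, σ, hK, hU⟩ := rotN_last s K V h
    rcases rot_ctx hU D hD with ⟨DU, h1, h2⟩ | ⟨D2, DU, h1, h2, h3, h4, h5⟩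
    · obtain ⟨r, hr, C, C', D', e1, e2, e3, e4, e5⟩ := ih K U hK DU h1
      refine ⟨r, by omega, C, C', D', e1, e2, ?_, e4, ?_⟩
      · rw [← sim_msize h2]
        exact e3
      · have h6 := sim_trans h2 D' _ e5
        have h7 : s + 1 - r = s - r + 1 := by omega
        rw [h7]
        exact h6
    · obtain ⟨r, hr, C, C', D1', e1, e2, e3, e4, e5⟩ := ih K U hK DU h3
      obtain ⟨D2', g1, g2⟩ := shift e5 h4
      obtain ⟨C2, g3, g4⟩ := ext e4 g2.symm
      obtain ⟨D', g5, g6⟩ := restrict h1 D2' _ g1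
      refine ⟨r + 1, by omega, C, C2, D', e1, ?_, ?_, ?_, ?_⟩
      · rw [g4, e2]
      · have h8 : msize DU = msize D2 := by rw [msize_fl, msize_fl, h4]
        omega
      · exact ref_trans g6 C2 g3
      · have h7 : s + 1 - (r + 1) = s - r := by omega
        rw [h7]
        exact g5

end Pool.Agent.Y562.SP.PULL
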